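import Pool.Agent.Helper31.EC.Uns
import Pool.Agent.Helper82.TP.Copy

/-! CHANGE OF THE UNIT (truncation): the space `S.scl c` = the same finite spaces with depth `c n`. For `c ≤ 1` the ring
of functions of `S.scl c` is the quotient of the ring of `S` by `Id S c`. -/

set_option autoImplicit false

namespace Pool.Agent.Helper62.UT

open Finset Filter Topology Pool.Agent.Helper69.RK Pool.Agent.Helper31.EC Pool.Agent.Helper82.TP

noncomputable section

/-- another depth -/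
def fscl (F : FSp) (c : ℝ) (hc : 0 < c) : FSp where
  Ω := F.Ω
  ft := F.ft
  μ := F.μ
  nn := F.nn
  ms := F.ms
  Z := F.Z
  n := c * F.n
  pos := mul_pos hc F.pos

/-- another unit -/
def scl (S : Sp) (c : ℝ) (hc : 0 < c) : Sp where
  F := fun k => fscl (S.F k) c hc
  lim := S.lim.const_mul_atTop hc

open Sp

variable {S : Sp} (c : ℝ) (hc : 0 < c)

theorem scl_n (k : ℕ) : ((scl S c hc).F k).n = c * (S.F k).n := rfl

theorem scl_rt (A B : ∀ k, Setoid (S.F k).Ω) (k : ℕ) : (scl S c hc).rt A B k = S.rt A B k / c := by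
  have h1 : (scl S c hc).rt A B k = (S.F k).e (A k) (B k ⊓ (S.F k).Z) / (c * (S.F k).n) := rfl
  rw [h1]
  unfold rt
  rw [div_div, mul_comm c]

theorem scl_VB {A : ∀ k, Setoid (S.F k).Ω} : (scl S c hc).VB A ↔ S.VB A := by
  constructor
  · rintro ⟨C, hC⟩
    refine ⟨C * c, ?_⟩
    filter_upwards [hC] with k hk ω hω
    have h1 := hk ω hω
    rw [scl_n, ← mul_assoc] at h1
    exact h1
  · rintro ⟨C, hC⟩
    refine ⟨C / c, ?_⟩
    filter_upwards [hC] with k hk ω hω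
    have h1 : C / c * ((scl S c hc).F k).n = C * (S.F k).n := by
      rw [scl_n]
      field_simp
    rw [h1]
    exact hk ω hω

/-- informations -/
def sclI (A : S.Inf) : (scl S c hc).Inf := ⟨A.1, (scl_VB c hc).mpr A.2⟩

theorem sclI_le {A B : S.Inf} : sclI c hc A ≤ sclI c hc B ↔ A ≤ B := by
  rw [Inf.le_def, Inf.le_def]
  have h1 : (scl S c hc).rt (sclI c hc A).1 (sclI c hc B).1 = fun k => S.rt A.1 B.1 k / c := by
    funext k
    exact scl_rt c hc _ _ k
  rw [h1]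
  constructor
  · intro h
    have h2 := h.mul_const c
    rw [zero_mul] at h2
    refine h2.congr fun k => ?_
    field_simp
  · intro h
    have h2 := h.div_const c
    rwa [zero_div] at h2

/-- the map of entropy lattices -/
def sclL : S.L → (scl S c hc).L := Quotient.map (sclI c hc) (by
  intro A B hAB
  exact ⟨(sclI_le c hc).mpr hAB.1, (sclI_le c hc).mpr hAB.2⟩)

theorem sclL_cl (A : S.Inf) : sclL c hc (cl A) = cl (sclI c hc A) := rfl

theorem sclL_le {x y : S.L} : sclL c hc x ≤ sclL c hc y ↔ x ≤ y := by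
  induction x using cl_ind
  induction y using cl_ind
  exact sclI_le c hc

theorem sclL_mono {x y : S.L} (h : x ≤ y) : sclL c hc x ≤ sclL c hc y := (sclL_le c hc).mpr h

theorem sclL_inj {x y : S.L} (h : sclL c hc x = sclL c hc y) : x = y :=
  le_antisymm ((sclL_le c hc).mp h.le) ((sclL_le c hc).mp h.ge)

theorem sclL_sup (x y : S.L) : sclL c hc (x ⊔ y) = sclL c hc x ⊔ sclL c hc y := by
  induction x using cl_ind
  induction y using cl_ind
  rfl

theorem sclL_bot : sclL c hc (⊥ : S.L) = ⊥ := rfl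

theorem sclL_surj (y : (scl S c hc).L) : ∃ x : S.L, sclL c hc x = y := by
  induction y using cl_ind with | _ A
  exact ⟨cl ⟨A.1, (scl_VB c hc).mp A.2⟩, rfl⟩

theorem H_sclL (x : S.L) : H (sclL c hc x) = H x / c := by
  induction x using cl_ind with | _ A
  rw [sclL_cl, H_cl, H_cl]
  have h0 : (scl S c hc).rt (sclI c hc A).1 (scl S c hc).tr = fun k => c⁻¹ * S.rt A.1 S.tr k := by
    funext k
    exact (scl_rt c hc A.1 S.tr k).trans (div_eq_inv_mul _ _)
  rw [h0, ul_const_mul _ A.ub]; ring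

theorem h_sclL (x y : S.L) : h (sclL c hc x) (sclL c hc y) = h x y / c := by
  unfold h
  rw [← sclL_sup, H_sclL, H_sclL]; ring

theorem I_sclL (x y z : S.L) : I (sclL c hc x) (sclL c hc y) (sclL c hc z) = I x y z / c := by
  unfold I
  rw [← sclL_sup, ← sclL_sup, ← sclL_sup, ← sclL_sup, H_sclL, H_sclL, H_sclL, H_sclL]; ring

theorem scl_Bdd {α : ℕ → Type} {X : ∀ k, (S.F k).Ω → α k} : Bdd (S := scl S c hc) X ↔ Bdd X :=
  scl_VB c hc (A := fun k => Setoid.ker (X k))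

theorem sclL_io {α : ℕ → Type} (X : ∀ k, (S.F k).Ω → α k) : sclL c hc (io X) = io (S := scl S c hc) X := by
  by_cases hX : Bdd X
  · rw [io_eq hX, io_eq ((scl_Bdd c hc).mpr hX)]
    rfl
  · unfold io
    rw [dif_neg hX, dif_neg (fun h => hX ((scl_Bdd c hc).mp h)), sclL_bot]

theorem scl_sub {K : ℕ → ℝ} : (scl S c hc).Sub K ↔ S.Sub K := by
  constructor
  · rintro ⟨h0, h1⟩
    refine ⟨h0, ?_⟩
    have h2 := h1.const_mul c
    rw [mul_zero] at h2
    refine h2.congr fun k => ?_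
    rw [scl_n]
    have := (S.F k).pos
    field_simp
  · rintro ⟨h0, h1⟩
    refine ⟨h0, ?_⟩
    have h2 := h1.const_mul c⁻¹
    rw [mul_zero] at h2
    refine h2.congr fun k => ?_
    rw [scl_n]
    have := (S.F k).pos
    field_simp

theorem scl_dl (r : ℝ) (k : ℕ) : (scl S c hc).dl r k = S.dl (c * r) k := by
  unfold dl
  rw [scl_n]
  congr 1; ring

theorem scl_typ {E : ∀ k, (S.F k).Ω → Prop} : Typ (S := scl S c hc) E ↔ Typ (S := S) E := Iff.rfl

/-! ### functions -/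

/-- the same function -/
def trs : TR S →+* TR (scl S c hc) where
  toFun f := ⟨f.1, by
    obtain ⟨K, hK, h⟩ := f.2
    exact ⟨K, (scl_sub c hc).mpr hK, h⟩⟩
  map_one' := rfl
  map_mul' _ _ := rfl
  map_zero' := rfl
  map_add' _ _ := rfl

/-- the same function, back -/
def tru : TR (scl S c hc) →+* TR S where
  toFun f := ⟨f.1, by
    obtain ⟨K, hK, h⟩ := f.2
    exact ⟨K, (scl_sub c hc).mp hK, h⟩⟩
  map_one' := rfl
  map_mul' _ _ := rfl
  map_zero' := rfl
  map_add' _ _ := rfl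

theorem trs_tru (f : TR (scl S c hc)) : trs c hc (tru c hc f) = f := rfl
theorem tru_trs (f : TR S) : tru c hc (trs c hc f) = f := rfl

theorem trs_ag {r : ℝ} {f g : TR S} : TR.Ag r (trs c hc f) (trs c hc g) ↔ TR.Ag (c * r) f g := by
  constructor
  · rintro ⟨E, K, hE, hK, hh⟩
    refine ⟨E, K, hE, (scl_sub c hc).mp hK, ?_⟩
    filter_upwards [hh] with k hk ω a b
    have h1 := hk ω a b
    rw [scl_dl] at h1
    exact h1
  · rintro ⟨E, K, hE, hK, hh⟩
    refine ⟨E, K, hE, (scl_sub c hc).mpr hK, ?_⟩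
    filter_upwards [hh] with k hk ω a b
    rw [scl_dl]
    exact hk ω a b

theorem trs_dg (f : TR S) (r : ℝ) : TR.dg (trs c hc f) r = sclL c hc (TR.dg f (c * r)) := by
  unfold TR.dg VV.dg
  rw [sclL_io]
  have h1 : (TR.vec fun _ : Fin 1 => trs c hc f).cellv r = (TR.vec fun _ : Fin 1 => f).cellv (c * r) := by
    funext k ω
    unfold VV.cellv
    rw [scl_dl]
    rfl
  rw [h1]

theorem tru_ag {r : ℝ} {f g : TR (scl S c hc)} : TR.Ag (c * r) (tru c hc f) (tru c hc g) ↔ TR.Ag r f g :=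
  (trs_ag c hc).symm

theorem tru_dg (f : TR (scl S c hc)) (r : ℝ) : sclL c hc (TR.dg (tru c hc f) (c * r)) = TR.dg f r :=
  (trs_dg c hc (tru c hc f) r).symm

/-- TRUNCATION of functions -/
def qd (h1 : c ≤ 1) : QS S →+* QS (scl S c hc) :=
  Ideal.Quotient.lift (TR.Idl S) ((QS.mk (S := scl S c hc)).comp (trs c hc)) (by
    intro f hf
    have h2 : TR.Ag 1 f 0 := hf
    have h3 : TR.Ag (c * 1) f 0 := h2.anti (by rw [mul_one]; exact h1)
    have h4 := (trs_ag c hc).mpr h3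
    rw [map_zero] at h4
    show QS.mk (trs c hc f) = 0
    rw [← map_zero QS.mk]
    exact QS.mk_eq.mpr h4)

theorem qd_mk (h1 : c ≤ 1) (f : TR S) : qd c hc h1 (QS.mk f) = QS.mk (trs c hc f) := rfl

theorem qd_surj (h1 : c ≤ 1) (g : QS (scl S c hc)) : ∃ f : QS S, qd c hc h1 f = g := by
  obtain ⟨g, rfl⟩ := QS.mk_surj g
  exact ⟨QS.mk (tru c hc g), rfl⟩

theorem qd_mem_Id (h1 : c ≤ 1) {f : QS S} {r : ℝ} (hr : r ≤ 1) :
    qd c hc h1 f ∈ QS.Id (scl S c hc) r ↔ f ∈ QS.Id S (c * r) := by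
  obtain ⟨f, rfl⟩ := QS.mk_surj f
  have hcr : c * r ≤ 1 := by
    calc c * r ≤ c * 1 := mul_le_mul_of_nonneg_left hr hc.le
      _ ≤ 1 := by rw [mul_one]; exact h1
  rw [qd_mk, QS.mk_mem_Id hr, QS.mk_mem_Id hcr, ← trs_ag c hc, map_zero]

theorem qd_eq_zero (h1 : c ≤ 1) {f : QS S} : qd c hc h1 f = 0 ↔ f ∈ QS.Id S c := by
  rw [← QS.mem_Id_one, qd_mem_Id c hc h1 le_rfl, mul_one]

theorem qd_dg (h1 : c ≤ 1) (f : QS S) {r : ℝ} (hr : r ≤ 1) :
    QS.dg (qd c hc h1 f) r = sclL c hc (QS.dg f (c * r)) := by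
  obtain ⟨f, rfl⟩ := QS.mk_surj f
  have hcr : c * r ≤ 1 := by
    calc c * r ≤ c * 1 := mul_le_mul_of_nonneg_left hr hc.le
      _ ≤ 1 := by rw [mul_one]; exact h1
  rw [qd_mk, QS.dg_mk _ hr, QS.dg_mk _ hcr, trs_dg]

/-- the other direction: a larger depth -/
def qu (h1 : 1 ≤ c) : QS (scl S c hc) →+* QS S :=
  Ideal.Quotient.lift (TR.Idl (scl S c hc)) ((QS.mk (S := S)).comp (tru c hc)) (by
    intro f hf
    have h2 : TR.Ag 1 f (trs c hc 0) := hf
    have h3 : TR.Ag (c * 1) (tru c hc f) 0 := (trs_ag c hc (f := tru c hc f)).mp h2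
    show QS.mk (tru c hc f) = 0
    rw [← map_zero QS.mk]
    exact QS.mk_eq.mpr (h3.anti (by rw [mul_one]; exact h1)))

theorem qu_mk (h1 : 1 ≤ c) (f : TR (scl S c hc)) : qu c hc h1 (QS.mk f) = QS.mk (tru c hc f) := rfl

theorem qu_surj (h1 : 1 ≤ c) (g : QS S) : ∃ f : QS (scl S c hc), qu c hc h1 f = g := by
  obtain ⟨g, rfl⟩ := QS.mk_surj g
  exact ⟨QS.mk (trs c hc g), rfl⟩

theorem qu_mem_Id (h1 : 1 ≤ c) {f : QS (scl S c hc)} {r : ℝ} (hr : r ≤ 1) :
    qu c hc h1 f ∈ QS.Id S r ↔ f ∈ QS.Id (scl S c hc) (r / c) := by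
  obtain ⟨f, rfl⟩ := QS.mk_surj f
  have hcr : r / c ≤ 1 := by
    rw [div_le_one hc]
    exact hr.trans h1
  have e : c * (r / c) = r := by field_simp
  rw [qu_mk, QS.mk_mem_Id hr, QS.mk_mem_Id hcr, ← tru_ag c hc, e, map_zero]

theorem qu_dg (h1 : 1 ≤ c) (f : QS (scl S c hc)) {r : ℝ} (hr : r ≤ 1) :
    sclL c hc (QS.dg (qu c hc h1 f) r) = QS.dg f (r / c) := by
  obtain ⟨f, rfl⟩ := QS.mk_surj f
  have hcr : r / c ≤ 1 := by
    rw [div_le_one hc]
    exact hr.trans h1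
  have e : c * (r / c) = r := by field_simp
  rw [qu_mk, QS.dg_mk _ hr, QS.dg_mk _ hcr, ← tru_dg c hc, e]

/-! ### literal functions -/

theorem lit_qd {α : ℕ → Type} {V : ∀ k, (S.F k).Ω → α k} (h1 : c ≤ 1) {f : QS S} (hf : Lit V f) :
    Lit (S := scl S c hc) V (qd c hc h1 f) := by
  obtain ⟨g, rfl, hg⟩ := hf
  exact ⟨trs c hc g, rfl, hg⟩

theorem lit_un {α : ℕ → Type} {V : ∀ k, (S.F k).Ω → α k} (h1 : c ≤ 1) {f : QS (scl S c hc)}
    (hf : Lit (S := scl S c hc) V f) : ∃ g : QS S, Lit V g ∧ qd c hc h1 g = f := by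
  obtain ⟨g, rfl, hg⟩ := hf
  exact ⟨QS.mk (tru c hc g), ⟨tru c hc g, rfl, hg⟩, rfl⟩

/-! ### extensions -/

/-- the scaled extension -/
def pscl {T S : Sp} (p : Pj T S) : Pj (scl T c hc) (scl S c hc) where
  π := p.π
  law := p.law
  hZ := p.hZ
  hn := fun k => by rw [scl_n, scl_n, p.hn k]

theorem pscl_map {T S : Sp} (p : Pj T S) (x : S.L) : (pscl c hc p).map (sclL c hc x) = sclL c hc (p.map x) := by
  induction x using cl_ind
  rfl

theorem pscl_qd {T S : Sp} (p : Pj T S) (h1 : c ≤ 1) (f : QS S) :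
    (pscl c hc p).qs (qd c hc h1 f) = qd c hc h1 (p.qs f) := by
  obtain ⟨f, rfl⟩ := QS.mk_surj f
  rfl

/-- extensions of the scaled space -/
def pun {W S : Sp} (p : Pj W (scl S c hc)) : Pj (scl W c⁻¹ (inv_pos.mpr hc)) S where
  π := p.π
  law := p.law
  hZ := p.hZ
  hn := fun k => by
    rw [scl_n, p.hn k, scl_n, ← mul_assoc, inv_mul_cancel₀ hc.ne', one_mul]

theorem pun_map {W S : Sp} (p : Pj W (scl S c hc)) (x : S.L) :
    (pun c hc p).map x = sclL c⁻¹ (inv_pos.mpr hc) (p.map (sclL c hc x)) := by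
  induction x using cl_ind
  rfl

theorem pun_qd {W S : Sp} (p : Pj W (scl S c hc)) (h1 : c ≤ 1) (f : QS S) :
    qu c⁻¹ (inv_pos.mpr hc) ((one_le_inv₀ hc).mpr h1) ((pun c hc p).qs f) = p.qs (qd c hc h1 f) := by
  obtain ⟨f, rfl⟩ := QS.mk_surj f
  rfl

/-! ### events -/

theorem rest_scl (E : ∀ k, (S.F k).Ω → Prop) : (scl S c hc).rest E = scl (S.rest E) c hc := rfl

theorem pr_scl (E : ∀ k, (S.F k).Ω → Prop) : (scl S c hc).pr E = S.pr E := rfl

theorem restL_scl (E : ∀ k, (S.F k).Ω → Prop) (hE : 0 < ul (S.pr E)) (x : S.L) :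
    restL (S := scl S c hc) E hE (sclL c hc x) = sclL (S := S.rest E) c hc (restL E hE x) := by
  induction x using cl_ind
  rfl

theorem rest_qd (E : ∀ k, (S.F k).Ω → Prop) (hE : 0 < ul (S.pr E)) (h1 : c ≤ 1) (f : QS S) :
    QS.rest (S := scl S c hc) E hE (qd c hc h1 f) = qd (S := S.rest E) c hc h1 (QS.rest E hE f) := by
  obtain ⟨f, rfl⟩ := QS.mk_surj f
  rfl

/-- the scaled-back value of `h` on an event of an extension of the scaled space -/
theorem h_pun {W S : Sp} (p : Pj W (scl S c hc)) (E : ∀ k, (W.F k).Ω → Prop) (hE : 0 < ul (W.pr E)) (x y : S.L) :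
    h (restL E hE (p.map (sclL c hc x))) (restL E hE (p.map (sclL c hc y))) =
      h (restL (S := scl W c⁻¹ (inv_pos.mpr hc)) E hE ((pun c hc p).map x))
        (restL (S := scl W c⁻¹ (inv_pos.mpr hc)) E hE ((pun c hc p).map y)) / c := by
  rw [pun_map, pun_map, restL_scl, restL_scl]
  have e := h_sclL (S := W.rest E) c⁻¹ (inv_pos.mpr hc) (restL E hE (p.map (sclL c hc x)))
    (restL E hE (p.map (sclL c hc y)))
  refine Eq.symm ((congrArg (· / c) e).trans ?_)
  field_simp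

theorem I_pun {W S : Sp} (p : Pj W (scl S c hc)) (E : ∀ k, (W.F k).Ω → Prop) (hE : 0 < ul (W.pr E)) (x y z : S.L) :
    I (restL E hE (p.map (sclL c hc x))) (restL E hE (p.map (sclL c hc y))) (restL E hE (p.map (sclL c hc z))) =
      I (restL (S := scl W c⁻¹ (inv_pos.mpr hc)) E hE ((pun c hc p).map x))
        (restL (S := scl W c⁻¹ (inv_pos.mpr hc)) E hE ((pun c hc p).map y))
        (restL (S := scl W c⁻¹ (inv_pos.mpr hc)) E hE ((pun c hc p).map z)) / c := by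
  rw [pun_map, pun_map, pun_map, restL_scl, restL_scl, restL_scl]
  have e := I_sclL (S := W.rest E) c⁻¹ (inv_pos.mpr hc) (restL E hE (p.map (sclL c hc x)))
    (restL E hE (p.map (sclL c hc y))) (restL E hE (p.map (sclL c hc z)))
  refine Eq.symm ((congrArg (· / c) e).trans ?_)
  field_simp

end

end Pool.Agent.Helper62.UT
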